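import Mathlib

namespace Pool.Agent.Results.MP_c10dfe_an.NotTransitive

open Polynomial

/-- `A ≥ B`: there is a non-constant polynomial `π` with `π ∘ A = B ∘ π`. -/
def SemiConj (A B : ℂ[X]) : Prop := ∃ π : ℂ[X], 0 < π.natDegree ∧ π.comp A = B.comp π

/-- At a fixed point of `A` with multiplier `s`, the image is a fixed point of `B` whose
multiplier is a positive power of `s`. -/
lemma mult {A B : ℂ[X]} (h : SemiConj A B) (x : ℂ) (hx : A.eval x = x) :
    ∃ y : ℂ, ∃ e : ℕ, 0 < e ∧ B.eval y = y ∧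
      B.derivative.eval y = (A.derivative.eval x) ^ e := by
  obtain ⟨π, hπ, h⟩ := h
  set y := π.eval x with hy
  have hB : B.eval y = y := by
    have := congrArg (eval x) h
    rw [eval_comp, eval_comp, hx] at this
    exact this.symm
  have hne : π - C y ≠ 0 := by
    intro h0
    rw [sub_eq_zero] at h0
    rw [h0] at hπ
    simp at hπ
  obtain ⟨u, hu, hu'⟩ := exists_eq_pow_rootMultiplicity_mul_and_not_dvd _ hne x
  have he : 0 < rootMultiplicity x (π - C y) := (rootMultiplicity_pos hne).2 (by simp [hy])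
  set e := rootMultiplicity x (π - C y)
  obtain ⟨s, hs⟩ : X - C x ∣ A - C x := dvd_iff_isRoot.2 (by simp [hx])
  obtain ⟨v, hv⟩ : X - C y ∣ B - C y := dvd_iff_isRoot.2 (by simp [hB])
  have hs' : A.derivative.eval x = s.eval x := by
    have := congrArg (fun p => eval x (derivative p)) hs
    simpa using this
  have hv' : B.derivative.eval y = v.eval y := by
    have := congrArg (fun p => eval y (derivative p)) hv
    simpa using this
  have e1 : π.comp A - C y = (X - C x) ^ e * (s ^ e * u.comp A) := by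
    have := congrArg (fun p => p.comp A) hu
    simp only [sub_comp, C_comp, mul_comp, pow_comp, X_comp] at this
    rw [this, hs, mul_pow]; ring
  have e2 : B.comp π - C y = (X - C x) ^ e * (u * v.comp π) := by
    have := congrArg (fun p => p.comp π) hv
    simp only [sub_comp, C_comp, mul_comp, X_comp] at this
    rw [this, hu]; ring
  rw [h, e2] at e1
  have e3 := congrArg (eval x) (mul_left_cancel₀ (pow_ne_zero _ (X_sub_C_ne_zero x)) e1)
  simp only [eval_mul, eval_comp, eval_pow, hx, ← hy] at e3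
  have hu0 : u.eval x ≠ 0 := fun h0 => hu' (dvd_iff_isRoot.2 h0)
  refine ⟨y, e, he, hB, ?_⟩
  rw [hs', hv']
  apply mul_left_cancel₀ hu0
  rw [e3]; ring

noncomputable def P : ℂ[X] := X ^ 3 + C 2 * X
noncomputable def Q : ℂ[X] := -(X ^ 3 + C 2 * X)
noncomputable def R : ℂ[X] := X ^ 3 + C 4 * X ^ 2 + C 4 * X

lemma degP : P.natDegree = 3 := by unfold P; compute_degree!
lemma degQ : Q.natDegree = 3 := by unfold Q; rw [natDegree_neg]; compute_degree!
lemma degR : R.natDegree = 3 := by unfold R; compute_degree!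

lemma refl (A : ℂ[X]) : SemiConj A A := ⟨X, by simp, by simp⟩

lemma C4 : (C 4 : ℂ[X]) = C 2 * C 2 := by rw [← C_mul]; norm_num
lemma C2 : (C 2 : ℂ[X]) = 2 := rfl

lemma PR : SemiConj P R := ⟨X ^ 2, by simp, by simp [P, R, C4, C2]; ring⟩
lemma QR : SemiConj Q R := ⟨X ^ 2, by simp, by simp [Q, R, C4, C2]; ring⟩

lemma multP (y : ℂ) (h : P.eval y = y) :
    P.derivative.eval y = 2 ∨ P.derivative.eval y = -1 := by
  simp only [P, eval_add, eval_pow, eval_X, eval_mul, eval_C] at h
  have : y * (y ^ 2 + 1) = 0 := by linear_combination h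
  have e : P.derivative.eval y = 3 * y ^ 2 + 2 := by simp [P]; left; norm_num
  rcases mul_eq_zero.1 this with h0 | h0
  · left; rw [e, h0]; norm_num
  · right; rw [e]; linear_combination 3 * h0

lemma multQ (y : ℂ) (h : Q.eval y = y) :
    Q.derivative.eval y = -2 ∨ Q.derivative.eval y = 7 := by
  simp only [Q, eval_neg, eval_add, eval_pow, eval_X, eval_mul, eval_C] at h
  have : y * (y ^ 2 + 3) = 0 := by linear_combination -h
  have e : Q.derivative.eval y = -(3 * y ^ 2 + 2) := by simp [Q]; left; norm_num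
  rcases mul_eq_zero.1 this with h0 | h0
  · left; rw [e, h0]; norm_num
  · right; rw [e]; linear_combination -3 * h0

theorem result : ∃ P Q R φ ψ : ℂ[X],
    P.natDegree = 3 ∧ Q.natDegree = 3 ∧ R.natDegree = 3 ∧ φ.natDegree = 3 ∧ ψ.natDegree = 3 ∧
    SemiConj φ P ∧ SemiConj φ R ∧ SemiConj ψ R ∧ SemiConj ψ Q ∧
    ¬ ∃ Φ : ℂ[X], SemiConj Φ P ∧ SemiConj Φ Q := by
  refine ⟨P, Q, R, P, Q, degP, degQ, degR, degP, degQ, refl _, PR, QR, refl _, ?_⟩
  rintro ⟨Φ, hP, hQ⟩
  have hd : Φ.natDegree = 3 := by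
    obtain ⟨π, hπ, h⟩ := hP
    have := congrArg natDegree h
    rw [natDegree_comp, natDegree_comp, degP, mul_comm] at this
    exact Nat.eq_of_mul_eq_mul_right hπ this
  have hd' : (Φ - X).natDegree = 3 := by
    rw [natDegree_sub_eq_left_of_natDegree_lt (by simp [hd]), hd]
  obtain ⟨x, hx⟩ := Complex.exists_root (f := Φ - X) (natDegree_pos_iff_degree_pos.1 (by omega))
  have hx' : Φ.eval x = x := by simpa [sub_eq_zero] using hx
  obtain ⟨y, e, he, hy, h1⟩ := mult hP x hx'
  obtain ⟨z, f, hf, hz, h2⟩ := mult hQ x hx'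
  set l := Φ.derivative.eval x
  have key : (P.derivative.eval y) ^ f = (Q.derivative.eval z) ^ e := by
    rw [h1, h2, ← pow_mul, ← pow_mul, mul_comm]
  have keyn := congrArg (fun c : ℂ => ‖c‖) key
  simp only [norm_pow] at keyn
  rcases multP y hy with a | a <;> rcases multQ z hz with b | b <;> rw [a, b] at keyn
  · have : f = e := by
      simp only [norm_neg, Complex.norm_ofNat] at keyn
      exact pow_right_injective₀ (by norm_num) (by norm_num) keyn
    rw [this, ← h1, a, b] at h2
    norm_num at h2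
  · simp only [Complex.norm_ofNat] at keyn
    have : (2 : ℕ) ^ f = 7 ^ e := by exact_mod_cast keyn
    have h3 : Even ((2 : ℕ) ^ f) := (Nat.even_pow.2 ⟨by norm_num, by omega⟩)
    have h4 : Odd ((7 : ℕ) ^ e) := Odd.pow (by decide)
    rw [this] at h3
    exact (Nat.not_even_iff_odd.2 h4) h3
  · simp only [norm_neg, Complex.norm_ofNat, norm_one, one_pow] at keyn
    have : (1 : ℝ) < 2 ^ e := one_lt_pow₀ (by norm_num) (by omega)
    linarith
  · simp only [norm_neg, Complex.norm_ofNat, norm_one, one_pow] at keyn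
    have : (1 : ℝ) < 7 ^ e := one_lt_pow₀ (by norm_num) (by omega)
    linarith

end Pool.Agent.Results.MP_c10dfe_an.NotTransitive
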